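import Mathlib
import Pool.Agent.H957R3.PhiD
import Pool.Agent.H957R3.SP4

set_option autoImplicit false

/-!
# The map `Φ^V` is not always injective

Let `g` be a finite-dimensional complex semisimple Lie algebra with Cartan subalgebra `H`, and let
`Φ = (p ⊗ φ) ∘ (Id ⊗ π) ∘ Δ : Λ g → Λ H ⊗ A^*` be the map of the question.

We show that whenever `dim H ≤ 2` and `dim g ≥ 9` (for instance for `g = sp(4)`, of dimension `10`)
there are a finite-dimensional irreducible `g`-module `V` and a nonzero `g`-module map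
`f : V → Λ g` with `Φ ∘ f = 0` on all of `V`, so in particular on the zero weight space.

The reason: on `Λ³ g` the map `Φ` is, because of `Λ³ H = 0`, the composite of the `g`-equivariant
map `Ψ : Λ³ g → g ⊗ g`, `x ∧ y ∧ z ↦ x ⊗ [y,z] - y ⊗ [x,z] + z ⊗ [x,y]`, and of a linear map
on `g ⊗ g`. As `dim Λ³ g > dim (g ⊗ g)`, the `g`-module `ker Ψ` is nonzero, and we can take for `V`
any irreducible submodule of `ker Ψ`.
-/

open scoped TensorProduct

namespace Pool.Agent.Results.MP_4ef82d_al.NotInjective

open H957.ReederPhi H957.SP4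

/-- A counterexample to the injectivity of `Φ^V` for the Lie algebra `g` and its subalgebra `H`:
a finite-dimensional irreducible `g`-module `V` and a nonzero `g`-module map `f : V → Λ g` with
`Φ (f v) = 0` for all `v ∈ V`. Here `Φ : Λ g → Λ H ⊗ A^*` is formed with `p = Λ q` for any linear
map `q : g → H` (such as the projection along the root spaces), and with any subspace `A` of
`S(H)` (such as the space of harmonic polynomials). -/
structure Counterexample (g : Type) [LieRing g] [LieAlgebra ℂ g] [FiniteDimensional ℂ g]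
    [LieAlgebra.IsKilling ℂ g] (H : LieSubalgebra ℂ g) where
  /-- the module `V` -/
  V : Type
  [addCommGroup : AddCommGroup V]
  [module : Module ℂ V]
  [lieRingModule : LieRingModule g V]
  [lieModule : LieModule ℂ g V]
  [finiteDimensional : FiniteDimensional ℂ V]
  [irreducible : LieModule.IsIrreducible ℂ g V]
  /-- the map `f : V → Λ g` -/
  f : V →ₗ[ℂ] ExteriorAlgebra ℂ g
  f_ne_zero : f ≠ 0
  /-- `f` is a homomorphism of `g`-modules, where `x ∈ g` acts on `Λ g` by the derivation
  extending `ad x` -/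
  f_lie : ∀ (x : g) (v : V), f ⁅x, v⁆ = act x (f v)
  /-- the algebra homomorphism `τ : S(H) → Λ g` with `τ(x) = s(x)` for `x ∈ H` -/
  τ : SymmetricAlgebra ℂ H →ₐ[ℂ] ExteriorAlgebra ℂ g
  τ_ι : ∀ x : H, τ (SymmetricAlgebra.ι ℂ H x) = sFun (x : g)
  /-- `Φ (f v) = 0`, where `Φ = (Λ q ⊗ φ) ∘ (Id ⊗ π) ∘ Δ` and `φ : Λ g → A^*` is the transpose
  of `τ` restricted to `A` -/
  vanishing : ∀ (q : g →ₗ[ℂ] H) (A : Submodule ℂ (SymmetricAlgebra ℂ H)),
    ∃ φ : ExteriorAlgebra ℂ g →ₗ[ℂ] Module.Dual ℂ A,
      (∀ w a, φ w a = pairing (killingForm ℂ g) w (τ a)) ∧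
      ∀ v : V, TensorProduct.map (ExteriorAlgebra.map q).toLinearMap φ
        (TensorProduct.map LinearMap.id (evenProj g) (coproduct g (f v))) = 0

theorem exists_counterexample (g : Type) [LieRing g] [LieAlgebra ℂ g] [FiniteDimensional ℂ g]
    [LieAlgebra.IsKilling ℂ g] (H : LieSubalgebra ℂ g) (hH : Module.finrank ℂ H ≤ 2)
    (hg : 9 ≤ Module.finrank ℂ g) : Nonempty (Counterexample g H) := by
  obtain ⟨W, hW⟩ := exists_irreducible g hg
  have hnt : Nontrivial W := LieModule.nontrivial_of_isIrreducible ℂ g W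
  have hfin : FiniteDimensional ℂ H := inferInstanceAs (FiniteDimensional ℂ H.toSubmodule)
  refine ⟨{ V := W
            irreducible := hW
            f := (((kerSub g).incl.comp W.incl : W →ₗ⁅ℂ, g⁆ ExteriorAlgebra ℂ g) :
              W →ₗ[ℂ] ExteriorAlgebra ℂ g)
            f_ne_zero := ?_
            f_lie := fun x v => ?_
            τ := tau (H.incl : H →ₗ[ℂ] g)
            τ_ι := fun x => tau_ι (H.incl : H →ₗ[ℂ] g) x
            vanishing := fun q A => ⟨phi (H.incl : H →ₗ[ℂ] g) A, fun w a => rfl, fun v => ?_⟩ }⟩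
  · intro h0
    obtain ⟨w, hw⟩ := exists_ne (0 : W)
    have h1 : ((w : kerSub g) : ExteriorAlgebra ℂ g) = 0 := LinearMap.congr_fun h0 w
    exact hw (Subtype.ext (Subtype.ext h1))
  · exact ((kerSub g).incl.comp W.incl).map_lie x v
  · exact bigPhi_kerSub q (H.incl : H →ₗ[ℂ] g) A hH _ (v : kerSub g).2

/-- The map `Φ^V` is not always injective: for every semisimple `g` with a Cartan subalgebra `H`
such that `dim H ≤ 2` and `dim g ≥ 9` there is a counterexample; and there are such `g` and `H`. -/
theorem result :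
    (∀ (g : Type) [LieRing g] [LieAlgebra ℂ g] [FiniteDimensional ℂ g]
      [LieAlgebra.IsKilling ℂ g] (H : LieSubalgebra ℂ g) [H.IsCartanSubalgebra],
      Module.finrank ℂ H ≤ 2 → 9 ≤ Module.finrank ℂ g → Nonempty (Counterexample g H)) ∧
    ∃ (g : Type) (_ : LieRing g) (_ : LieAlgebra ℂ g) (_ : FiniteDimensional ℂ g)
      (_ : LieAlgebra.IsKilling ℂ g) (H : LieSubalgebra ℂ g),
      H.IsCartanSubalgebra ∧ Nonempty (Counterexample g H) := by
  constructor
  · intro g _ _ _ _ H _ hH hg
    exact exists_counterexample g H hH hg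
  · exact ⟨sp, inferInstance, inferInstance, inferInstance, inferInstance, diagSub, inferInstance,
      exists_counterexample sp diagSub finrank_diagSub ten_le_finrank⟩

end Pool.Agent.Results.MP_4ef82d_al.NotInjective
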